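import Pool.Agent.H6.IsC

namespace Pool.Agent.Results.MP_d97def_al.PropA

open Pool.Agent.H6.Is

theorem result (G : Type*) [Group G]
    (h : ∀ (n : ℕ) (c : G → Fin n), Function.Surjective c → ∃ i, 1 / (n : ℝ) ≤ is12 (c ⁻¹' {i})) :
    Amenable G := by
  classical
  by_contra H
  obtain ⟨n, c, hc⟩ := low H
  let e := Fintype.equivFin (Set.range c)
  obtain ⟨i, hi⟩ := h _ (e ∘ Set.rangeFactorization c)
    (e.surjective.comp Set.rangeFactorization_surjective)
  have q : (e ∘ Set.rangeFactorization c) ⁻¹' {i} = c ⁻¹' {(e.symm i).1} := by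
    ext x
    simp only [Set.mem_preimage, Set.mem_singleton_iff, Function.comp_apply,
      Equiv.apply_eq_iff_eq_symm_apply, Subtype.ext_iff]
    rfl
  rw [q] at hi
  have a : Fintype.card (Set.range c) ≤ n := 
    (Fintype.card_le_of_injective Subtype.val Subtype.val_injective).trans (Fintype.card_fin n).le
  have b : (0 : ℝ) < Fintype.card (Set.range c) := Nat.cast_pos.2 i.pos
  exact absurd (hi.trans_lt (hc _)) (not_lt.2 (one_div_le_one_div_of_le b (Nat.cast_le.2 a)))

end Pool.Agent.Results.MP_d97def_al.PropA
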